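import Pool.Agent.H29.FX.Targets

/-!
# Triples with few exponents (MP_7ecdd4_nt): a flat point is alone in its class (helper88)
-/

set_option autoImplicit false

open Finset MvPolynomial
open Pool.Agent.H29.FX

namespace Pool.Agent.H88.TFX

theorem FLT_en_pos {n : ℕ} (pt : Fin n → Fin 3) (e : Fin n → ℕ) (x : Fin n → ℤ)
    (hx : ∀ v, 1 ≤ x v) (a : Fin 3) : 1 ≤ eval x (en pt e a) := by
  unfold en
  rw [map_prod]
  have h : 0 < ∏ v ∈ univ.filter (fun v => pt v = a), eval x ((X v : Pl n) ^ e v) := by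
    refine prod_pos fun v _ => ?_
    rw [map_pow, eval_X]
    have := hx v
    positivity
  omega

/-- the cross difference is divisible by `p ^ s` -/
theorem FLT_cross (hLOC : T_LOC) (hLDW : T_LDW) (hPID : T_PID) {n p s : ℕ} {pt : Fin n → Fin 3}
    {e : Fin n → ℕ} {L : Tw n} {x y : Fin n → ℤ} (hp : p.Prime) (hsp : s ≤ p) (hL : Gd L)
    (he : ∀ v, 1 ≤ e v) (hLx : On L x) (hLy : On L y) (hxy : ∀ v, (p : ℤ) ∣ y v - x v)
    (hJ : ¬ (p : ℤ) ∣ eval x (TJ L)) (hF : Flat pt e L s x) (h1 : ∀ v, 1 ≤ x v ∧ 1 ≤ y v)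
    (a b : Fin 3) :
    ((p ^ s : ℕ) : ℤ) ∣ eval y (en pt e a) * eval x (en pt e b) -
      eval y (en pt e b) * eval x (en pt e a) := by
  have hK : eval x (en pt e b) ≠ 0 := by
    have := FLT_en_pos pt e x (fun v => (h1 v).1) b
    omega
  have hP : eval x (∏ v, (X v : Pl n)) ≠ 0 := by
    rw [map_prod]
    refine prod_ne_zero_iff.2 fun v _ => ?_
    rw [eval_X]
    have := (h1 v).1
    omega
  have hg : ∀ i, (∏ v, (X v : Pl n)) * (en pt e b * TD L i (en pt e a) -
      en pt e a * TD L i (en pt e b)) =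
      en pt e a * en pt e b * (lg pt e (TD L i) a - lg pt e (TD L i) b) := by
    intro i
    have k1 := hPID n pt e (TD L i) a he
    have k2 := hPID n pt e (TD L i) b he
    calc (∏ v, (X v : Pl n)) * (en pt e b * TD L i (en pt e a) - en pt e a * TD L i (en pt e b))
        = en pt e b * ((∏ v, (X v : Pl n)) * TD L i (en pt e a)) -
          en pt e a * ((∏ v, (X v : Pl n)) * TD L i (en pt e b)) := by ring
      _ = _ := by
        rw [k1, k2]
        ring
  have hW := hLDW n s (TD L) x (en pt e a) (en pt e b) (∏ v, X v)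
    (fun i => lg pt e (TD L i) a - lg pt e (TD L i) b) hg hP hK (fun i α hα => hF i a b α hα)
  obtain ⟨t, -, ht⟩ := hLOC n p s L x y hp hsp hL hLx hLy hxy hJ
  have h0 : ((eval y (en pt e a) * eval x (en pt e b) -
      eval y (en pt e b) * eval x (en pt e a) : ℤ) : ZMod (p ^ s)) = 0 := by
    push_cast
    rw [ht (en pt e a), ht (en pt e b), sum_mul, sum_mul, ← sum_sub_distrib]
    refine sum_eq_zero fun α _ => ?_
    by_cases hα : ∑ v, α v ≤ s
    · have h2 := congrArg (fun z : ℤ => (z : ZMod (p ^ s))) (hW α hα)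
      simp only [Int.cast_mul] at h2
      calc (∏ v, ((p : ZMod (p ^ s)) * ((t v : ℤ) : ZMod (p ^ s))) ^ α v * iv p s (α v)) *
            ((eval x (dw (TD L) α (en pt e a)) : ℤ) : ZMod (p ^ s)) *
              ((eval x (en pt e b) : ℤ) : ZMod (p ^ s)) -
          (∏ v, ((p : ZMod (p ^ s)) * ((t v : ℤ) : ZMod (p ^ s))) ^ α v * iv p s (α v)) *
            ((eval x (dw (TD L) α (en pt e b)) : ℤ) : ZMod (p ^ s)) *
              ((eval x (en pt e a) : ℤ) : ZMod (p ^ s))
          = (∏ v, ((p : ZMod (p ^ s)) * ((t v : ℤ) : ZMod (p ^ s))) ^ α v * iv p s (α v)) *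
            (((eval x (dw (TD L) α (en pt e a)) : ℤ) : ZMod (p ^ s)) *
              ((eval x (en pt e b) : ℤ) : ZMod (p ^ s)) -
            ((eval x (dw (TD L) α (en pt e b)) : ℤ) : ZMod (p ^ s)) *
              ((eval x (en pt e a) : ℤ) : ZMod (p ^ s))) := by ring
        _ = 0 := by rw [h2, sub_self, mul_zero]
    · have hz : (∏ v, ((p : ZMod (p ^ s)) * ((t v : ℤ) : ZMod (p ^ s))) ^ α v *
          iv p s (α v)) = 0 := by
        have h3 : (∏ v, ((p : ZMod (p ^ s)) * ((t v : ℤ) : ZMod (p ^ s))) ^ α v *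
            iv p s (α v)) = (p : ZMod (p ^ s)) ^ (∑ v, α v) *
            ∏ v, ((t v : ℤ) : ZMod (p ^ s)) ^ α v * iv p s (α v) := by
          rw [← prod_pow_eq_pow_sum, ← prod_mul_distrib]
          refine prod_congr rfl fun v _ => ?_
          rw [mul_pow]
          ring
        have h4 : (p : ZMod (p ^ s)) ^ (∑ v, α v) = 0 := by
          have h5 : ∑ v, α v = s + (∑ v, α v - s) := by omega
          have h6 : (p : ZMod (p ^ s)) ^ s = 0 := by
            have := ZMod.natCast_self (p ^ s)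
            rwa [Nat.cast_pow] at this
          rw [h5, pow_add, h6, zero_mul]
        rw [h3, h4, zero_mul]
      rw [hz]
      ring
  exact (ZMod.intCast_zmod_eq_zero_iff_dvd _ _).1 h0

theorem pf_FLT (hLOC : T_LOC) (hLDW : T_LDW) (hPID : T_PID) : T_FLT := by
  intro n p s pt e L H x y hp hsp hL he hLx hLy hxy hJ hF h1 hcop hH hHp a
  obtain ⟨b, hb⟩ : ∃ b : Fin 3, a ≠ b := by
    fin_cases a
    · exact ⟨1, by decide⟩
    · exact ⟨0, by decide⟩
    · exact ⟨0, by decide⟩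
  have hdvd := FLT_cross hLOC hLDW hPID hp hsp hL he hLx hLy hxy hJ hF h1 a b
  have ax := FLT_en_pos pt e x (fun v => (h1 v).1) a
  have ay := FLT_en_pos pt e y (fun v => (h1 v).2) a
  have bx := FLT_en_pos pt e x (fun v => (h1 v).1) b
  have by' := FLT_en_pos pt e y (fun v => (h1 v).2) b
  obtain ⟨cx, cy⟩ := hcop a b hb
  obtain ⟨hax, hay⟩ := hH a
  obtain ⟨hbx, hby⟩ := hH b
  set Ax := eval x (en pt e a)
  set Ay := eval y (en pt e a)
  set Bx := eval x (en pt e b)
  set By := eval y (en pt e b)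
  have rax : (1 : ℝ) ≤ (Ax : ℝ) := by exact_mod_cast ax
  have ray : (1 : ℝ) ≤ (Ay : ℝ) := by exact_mod_cast ay
  have rbx : (1 : ℝ) ≤ (Bx : ℝ) := by exact_mod_cast bx
  have rby : (1 : ℝ) ≤ (By : ℝ) := by exact_mod_cast by'
  have hH0 : 0 ≤ H := by linarith
  have u1 : (Ay : ℝ) * Bx ≤ H ^ 2 := by
    rw [sq]
    exact mul_le_mul hay hbx (by linarith) hH0
  have u2 : (By : ℝ) * Ax ≤ H ^ 2 := by
    rw [sq]
    exact mul_le_mul hby hax (by linarith) hH0
  have v1 : (0 : ℝ) < (Ay : ℝ) * Bx := by positivity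
  have v2 : (0 : ℝ) < (By : ℝ) * Ax := by positivity
  have habs : |((Ay * Bx - By * Ax : ℤ) : ℝ)| < (p : ℝ) ^ s := by
    push_cast
    rw [abs_lt]
    constructor <;> linarith
  have habs' : |Ay * Bx - By * Ax| < ((p ^ s : ℕ) : ℤ) := by
    have : ((|Ay * Bx - By * Ax| : ℤ) : ℝ) < ((((p ^ s : ℕ) : ℤ)) : ℝ) := by
      rw [Int.cast_abs]
      push_cast at habs ⊢
      exact habs
    exact_mod_cast this
  have hz : Ay * Bx - By * Ax = 0 := Int.eq_zero_of_abs_lt_dvd hdvd habs'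
  have heq : Ay * Bx = By * Ax := by linarith
  have d1 : Ax ∣ Ay := cx.dvd_of_dvd_mul_right (heq ▸ dvd_mul_left Ax By)
  have d2 : Ay ∣ Ax := cy.dvd_of_dvd_mul_left (heq ▸ dvd_mul_right Ay Bx)
  exact Int.dvd_antisymm (by omega) (by omega) d1 d2

end Pool.Agent.H88.TFX
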